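import Pool.Agent.Y172.R4

/-!
Weak abundance, in terms of the literal definitions of the Kodaira dimension and of the numerical
dimension, for log canonical pairs with a finite cover which is very affine over a base of general
type, outside of the diminished base locus of `K_X + Δ` and of the zeros of a section.
-/

set_option autoImplicit false

open FF Pool.Agent.W602.GT Pool.Agent.Y172

namespace Pool.Agent.Results.MP_2c56d9_ag.DiminishedBaseLocus

/-- The prime divisor `P` is negligible: the section `σ` of `a (K_X + Δ)` vanishes along `P`, or `P`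
is in the base locus of `m (K_X + Δ + η A)` for all `m ≥ 1` and all small `η ≥ 0`. -/
def Negligible {K : Type} [Field K] [Algebra ℂ K] {N : ℕ} (y : Fin (N + 1) → K) (n : ℕ)
    (Δ A : Place ℂ K → ℚ) (a : ℕ) (σ : (Fin n → Derivation ℂ K K) → K) (P : Place ℂ K) : Prop :=
  ¬ OrdEq P σ (-(a * Δ P)) ∨ Diminished y n Δ A P

/-- The `M`-canonical form `f (dx₁ ∧ ... ∧ dx_d) ^ M`. -/
noncomputable def baseForm {L : Type} [Field L] [Algebra ℂ L] {d : ℕ} (x : Fin d → L) (M : ℕ)
    (f : L) (G : Fin d → Derivation ℂ L L) : L :=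
  f * (Matrix.of fun j l => G j (x l)).det ^ M

/-- The place `Q` is over the generic point of the variety with function field `F`. -/
def Horizontal {L : Type} [Field L] [Algebra ℂ L] (F : IntermediateField ℂ L) (Q : Place ℂ L) :
    Prop :=
  ∀ f ∈ F, f ≠ 0 → Q.ord f = 0

/-- **Weak abundance.** Let `(X, Δ)` be a projective log canonical pair of dimension `n` with
function field `K`, `A` an effective divisor on `X`, `σ ≠ 0` a section of `a (K_X + Δ)`, `a ≥ 0`,
`Z → X` a finite cover with function field `L`, and `F ⊆ L` the function field of a variety `W` of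
dimension `d`, with `M`-canonical forms `φ i (dx₁ ∧ ... ∧ dx_d) ^ M`, `i = 0, ..., d₀`, with
algebraically independent ratios, `M > 0`. Let `L` be generated by functions `t j` and elements
which are algebraic over `F`. Assume for all prime divisors `P` of `X` which are not negligible and
all prime divisors `Q` of `Z` over `P`, with ramification index `e`: `e (1 - Δ P) ≤ 1`; if `Q` is
over the generic point of `W` and a zero or pole of some `t j`, then `Δ P ≥ 1`; if `Q` is not over
the generic point of `W`, then the order of the forms on `W` along `Q` is at least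
`- M (1 - e (1 - Δ P))`. Then the numerical dimension `ν` and the Kodaira dimension `κ` of
`K_X + Δ` satisfy `κ ≤ ν ≤ κ + (d - d₀)`; in particular, they are equal if `d₀ = d`. -/
theorem result {K L : Type} [Field K] [Field L] [Algebra ℂ K] [Algebra ℂ L] [Algebra K L]
    [IsScalarTower ℂ K L] [FiniteDimensional K L] {N n a d d₀ M r : ℕ} {y : Fin (N + 1) → K}
    (hy : NormalModel y) (hn : Algebra.trdeg ℂ K = n)
    {Δ : Place ℂ K → ℚ} (hΔ : Effective y Δ) (hLC : LogCanonical y n Δ)
    {A : Place ℂ K → ℚ} (hA : Effective y A)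
    {σ : (Fin n → Derivation ℂ K K) → K} (hσ : IsSection y n a (a • Δ) σ) (hσ0 : σ ≠ 0)
    {F : IntermediateField ℂ L} (hd : Algebra.trdeg ℂ F = d)
    {x : Fin d → L} (hxF : ∀ j, x j ∈ F) (hx : AlgebraicIndependent ℂ x) (hM : 0 < M)
    {φ : Fin (d₀ + 1) → L} (hφF : ∀ i, φ i ∈ F) (hφ0 : φ 0 ≠ 0)
    (hφ : AlgebraicIndependent ℂ (fun i : Fin d₀ => φ i.succ / φ 0))
    {t : Fin r → L} (ht : ∀ j, t j ≠ 0)
    (hgen : IntermediateField.adjoin ℂ ({z : L | IsAlgebraic F z} ∪ Set.range t) = ⊤)
    (h : ∀ P, IsPrimeDivisor y P → ¬ Negligible y n Δ A a σ P →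
      ∀ (Q : Place ℂ L) (e : ℕ), Over Q P e → (e : ℚ) * (1 - Δ P) ≤ 1 ∧
        (Horizontal F Q → (∃ j, Q.ord (t j) ≠ 0) → 1 ≤ Δ P) ∧
        (¬ Horizontal F Q → ∀ i, OrdGe Q (baseForm x M (φ i)) (-(M * (1 - e * (1 - Δ P)))))) :
    (kodairaDim y n Δ = ⊥ ∧ numericalDim y n Δ A = ⊥) ∨
      ∃ κ : ℕ, kodairaDim y n Δ = (κ : WithBot ℕ) ∧
        ∀ A', Effective y A' → Integral y A' →
          (κ : EReal) ≤ numericalDim y n Δ A' ∧
            numericalDim y n Δ A' ≤ ((κ + (d - d₀) : ℕ) : EReal) := by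
  have hneg : ∀ P, OrdEq P σ (-(a * Δ P)) → ¬ Diminished y n Δ A P →
      ¬ Negligible y n Δ A a σ P := by
    rintro P h1 h2 (h3 | h3)
    · exact h3 h1
    · exact h2 h3
  refine Pool.Agent.Y172.main4 (L := L) hy hn hΔ hLC hA hσ hσ0 hd hxF hx hM hφF hφ0 hφ ?_ ht hgen
    ?_ ?_
  · intro P hP h1 h2 Q e hQ hv i G hG
    exact (h P hP (hneg P h1 h2) Q e hQ).2.2 hv i G hG
  · intro P hP h1 h2 Q e hQ hv ht
    exact (h P hP (hneg P h1 h2) Q e hQ).2.1 hv ht
  · intro P hP h1 h2 Q e hQ
    exact (h P hP (hneg P h1 h2) Q e hQ).1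

end Pool.Agent.Results.MP_2c56d9_ag.DiminishedBaseLocus
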