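import Pool.Agent.Y174.U3

/-!
MP_2c56d9_ag, Q1: log canonical pairs of log Kodaira dimension at most `0` with generically generated
logarithmic symmetric differentials.
-/

set_option autoImplicit false

universe u

open FF IntermediateField Pool.Agent.W619.PQ Pool.Agent.W619.TW Pool.Agent.Y174

namespace Pool.Agent.Results.MP_2c56d9_ag.LogSymmetricDifferentials

/-- Let `(V, Δ)` be a projective log canonical pair of dimension `n`, `K` the function field of `V`,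
`δ v ≥ 0` the multiplicity of `Δ` along the prime divisor `v` over `V`, that is, the positive part
of `- a (v, V, Δ)`, and `B` a set of prime divisors over `V` with `δ v = 1`. Let `S ^ m Ω (log B)`
be generically generated by its global sections for some `m ≥ 1`, and let `κ (K_V + Δ) ≤ 0`. Then
there is a cyclic cover `π : Z → V`, given by `t ^ m = f`, `f` a rational function on `V`, with `n`
linearly independent 1-forms `η i` on `Z` with logarithmic poles along `B_Z = π^(-1) B`, such that for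
the positive part `Δ_Z` of the divisor `π^* (K_V + Δ) - K_Z`, with multiplicities `δ'`, which
are `1` along `B_Z`, `κ (K_V + Δ) = κ (K_Z + Δ_Z) = 0` and `ν (K_V + Δ) ≤ ν (K_Z + Δ_Z)`. -/
theorem result {K : Type u} [Field K] [Algebra ℂ K] [Algebra.EssFiniteType ℂ K] {n m : ℕ}
    (hn : Algebra.trdeg ℂ K = n) (hm : 1 ≤ m) (B : Place ℂ K → Prop) (δ : Place ℂ K → ℝ)
    (hδ : ∀ v, 0 ≤ δ v) (hB : ∀ v, B v → δ v = 1) (hκ : ¬ PairKod ℂ K n δ 1)
    (hgen : GenGenLog ℂ K n m B) :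
    ∃ t : AlgebraicClosure K, t ≠ 0 ∧ (∃ f : K, algebraMap K (AlgebraicClosure K) f = t ^ m) ∧
      (∃ (η : Fin n → (Derivation ℂ K⟮t⟯ K⟮t⟯ →ₗ[K⟮t⟯] K⟮t⟯)), LinearIndependent K⟮t⟯ η ∧
        ∀ i, ∀ w : Place ℂ K⟮t⟯, IsDivisorial w n → ∀ D : Derivation ℂ K⟮t⟯ K⟮t⟯,
          LogFld (BdOn B) w D → w.Reg (η i D)) ∧
      ∃ δ' : Place ℂ K⟮t⟯ → ℝ, IsPull δ δ' ∧ (∀ w, BdOn B w → δ' w = 1) ∧
        PairKod ℂ K n δ 0 ∧ (∀ h, PairKod ℂ K n δ h ↔ PairKod ℂ K⟮t⟯ n δ' h) ∧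
        ∀ h, PairNum ℂ K⟮t⟯ n δ' h → PairNum ℂ K n δ h := by
  obtain ⟨t, h1, h2, h3, h4, h5⟩ := main3L ‹Algebra.EssFiniteType ℂ K› hn hm hδ hB hκ hgen
  obtain ⟨δ', hδ'⟩ := exists_pull (L := K⟮t⟯) δ
  refine ⟨t, h1, h2, h3, δ', hδ', ?_, h4, h5 δ' hδ'⟩
  rintro w ⟨v, e, hw, hv⟩
  rw [hδ' v w e hw, hB v hv, sub_self, mul_zero, sub_zero, max_eq_right zero_le_one]

end Pool.Agent.Results.MP_2c56d9_ag.LogSymmetricDifferentials
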