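import Pool.Agent.W619.Y.LMain

/-! Weak abundance for log canonical pairs on quotients of products of a variety and curves. -/

set_option autoImplicit false
set_option linter.overlappingInstances false

universe u

open FF IntermediateField Pool.Agent.W619.PQ Pool.Agent.W619.PL Pool.Agent.W619.TW
  Pool.Agent.W619.X Pool.Agent.W619.Y

namespace Pool.Agent.Results.MP_2c56d9_ag.MixedLogPairs

/-- Let `Y` be a projective variety of dimension `d` with function field `M` (for instance a
point), `F i` (`i < n`) the function fields of curves `C i`, `Z` the product of `Y` and the curves,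
with function field `L` (`hsup`), `G` a finite group of automorphisms of `L` which permutes the
curves through `σ`, `B i` a finite set of points of the quotient of `C i` by its stabilizer, such
that the `B i` are permuted by `G`, `X` a projective manifold birational to `Z / G`, and `D` the
reduced divisor with normal crossings on `X` over the `B i`. Assume `LogMixedPos`, for instance
that the fixed locus of each `g ≠ 1` in `G` on the product of the curves is empty or of codimension
at least `7` (at least `3` if no `B i` is empty).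

If some open curve `C i` minus the preimage of `B i` is the projective line or the affine line, or
if `ν (Y) = -∞`, then `ν (K_X + D) = -∞`. Otherwise, if `κ (Y) = ν (Y) = b`, then
`κ (K_X + D) = ν (K_X + D) = b + e`, where `e` is the number of the open curves which are not
flat (elliptic, or the projective line minus two points). -/
theorem result {L : Type u} [Field L] [Algebra ℂ L] (d n : ℕ)
    (hn : Algebra.trdeg ℂ L = (d + n : ℕ))
    (M : IntermediateField ℂ L) [Algebra.EssFiniteType ℂ M] (hM : Algebra.trdeg ℂ M = d)
    (F : Fin n → IntermediateField ℂ L) (hF : ∀ i, IsFF ℂ (F i))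
    (hsup : M ⊔ (⨆ i, F i) = ⊤)
    (G : Subgroup (L ≃ₐ[ℂ] L)) [Finite G] (σ : G →* Equiv.Perm (Fin n))
    (hσ : ∀ (g : G) i, ∀ z ∈ F i, (g : L ≃ₐ[ℂ] L) z ∈ F (σ g i))
    (B : ∀ i, Set (Place ℂ ↥(F i ⊓ fixedField (stb G σ i)))) (hB : ∀ i, (B i).Finite)
    (hinv : BdInv G σ F B) (h : LogMixedPos G σ F B) :
    ((NumNeg ℂ M d (fun _ => False) ∨ ∃ i, IsNegative inf_le_left (B i)) →
      NumNeg ℂ (fixedField G) (d + n) (BdQ G σ F B)) ∧
    ((∀ i, ¬ IsNegative inf_le_left (B i)) →
      ∀ b, KodTr ℂ M d b → NumLe ℂ M d (fun _ => False) b →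
        KodGe ℂ (fixedField G) (d + n) (BdQ G σ F B)
          (b + {i | ¬ IsFlat inf_le_left (B i)}.ncard) ∧
        NumLe ℂ (fixedField G) (d + n) (BdQ G σ F B)
          (b + {i | ¬ IsFlat inf_le_left (B i)}.ncard)) := by
  have halg : Algebra.IsAlgebraic ↥(M ⊔ ⨆ i, F i) L := alg_of_top M F hsup
  obtain ⟨h1, h2⟩ := abLM d n hn M hM F halg G σ hσ B hB hinv h
  obtain ⟨h3, h4, -⟩ := h2 hsup
  exact ⟨h4, fun hneg b hb1 hb2 => ⟨(h1 hneg b hb1).2, h3 hneg b hb2⟩⟩

end Pool.Agent.Results.MP_2c56d9_ag.MixedLogPairs
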