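import Pool.Agent.Y172.R1

/-!
Weak abundance, in terms of the literal definitions of the Kodaira dimension and of the numerical
dimension, for log canonical pairs whose interior has very affine fibres over the image of a linear
system with high multiplicities.
-/

set_option autoImplicit false

open FF Pool.Agent.W602.GT Pool.Agent.Y172

namespace Pool.Agent.Results.MP_2c56d9_ag.VeryAffineFibres

section

variable {K : Type} [Field K] [Algebra ℂ K]

/-- The field generated by the quotients of the members of `V`: the function field of the image of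
the rational map given by the linear system `V`. -/
noncomputable def quotientField (V : Submodule ℂ K) : IntermediateField ℂ K :=
  IntermediateField.adjoin ℂ {y : K | ∃ f ∈ V, ∃ g ∈ V, y = f / g}

/-- The nonzero functions `φ i` span `V`, and `V` is not a direct sum of two nonzero subspaces such
that each `φ i` is in one of the two. -/
def SpanIrreducibly {q : ℕ} (V : Submodule ℂ K) (φ : Fin q → K) : Prop :=
  (∀ i, φ i ≠ 0) ∧ Submodule.span ℂ (Set.range φ) = V ∧
  ∀ V₁ V₂ : Submodule ℂ K, V₁ ⊔ V₂ = V → V₁ ⊓ V₂ = ⊥ → (∀ i, φ i ∈ V₁ ∨ φ i ∈ V₂) →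
    V₁ = ⊥ ∨ V₂ = ⊥

end

/-- **Weak abundance.** Let `(X, Δ)` be a projective log canonical pair of dimension `n` with
function field `K`, let `φ` be members of a linear system `V` of dimension `v` which span `V`
irreducibly, and let `d = v - k` be the dimension of the image of `X` under `V`. Assume that at all
prime divisors `P` of `X` where the `φ i` do not all have the same order two of these orders differ
by at least `s (1 - Δ P)`, where `2 s > (v + 2) (k + 1) (k + 2)`. Let `K` be generated by functions
`t j` and the algebraic closure in `K` of the function field of the image, such that the prime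
divisors of `X` over the generic point of the image which are zeros or poles of some `t j` have
coefficient at least `1` in `Δ`. Then the Kodaira dimension and the numerical dimension of
`K_X + Δ` are equal. -/
theorem result {K : Type} [Field K] [Algebra ℂ K] {N n v d k q r : ℕ} {y : Fin (N + 1) → K}
    (hy : NormalModel y) (hn : Algebra.trdeg ℂ K = n)
    {Δ : Place ℂ K → ℚ} (hΔ : Effective y Δ) (hLC : LogCanonical y n Δ)
    {V : Submodule ℂ K} (hV : Module.finrank ℂ V = v + 1) {φ : Fin q → K}
    (hφ : SpanIrreducibly V φ) (hd : Algebra.trdeg ℂ (quotientField V) = d) (hk : d + k = v)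
    {s : ℝ} (hs : ((v : ℝ) + 2) * ((k + 1) * (k + 2)) < 2 * s)
    (hm : ∀ P, IsPrimeDivisor y P → (∃ i j, P.ord (φ i) ≠ P.ord (φ j)) →
      ∃ i j, s * (1 - Δ P) ≤ ((P.ord (φ i) - P.ord (φ j) : ℤ) : ℝ))
    {t : Fin r → K} (ht : ∀ j, t j ≠ 0)
    (hgen : IntermediateField.adjoin ℂ ({x : K | IsAlgebraic (quotientField V) x} ∪ Set.range t) = ⊤)
    (hb : ∀ P, IsPrimeDivisor y P → (∀ f ∈ quotientField V, f ≠ 0 → P.ord f = 0) →
      (∃ j, P.ord (t j) ≠ 0) → 1 ≤ Δ P) :
    ∃ κ : ℕ, kodairaDim y n Δ = (κ : WithBot ℕ) ∧
      ∀ A, Effective y A → Integral y A → numericalDim y n Δ A = (κ : EReal) := by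
  obtain rfl : k = v - d := by omega
  exact Pool.Agent.Y172.main hy hn hΔ hLC hV hφ.1 hφ.2.1 hφ.2.2 hd (by omega)
    (by push_cast; exact hs) hm ht hgen hb

end Pool.Agent.Results.MP_2c56d9_ag.VeryAffineFibres
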